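import Mathlib
import Pool.Agent.Helper940.GrigIrr
import Pool.Agent.Results.MP_2e8808_al.GrigorchukJacobson

/-! MP_64b2bf_al: the first Grigorchuk group has an infinite-dimensional irreducible
representation over the field with two elements. -/

set_option autoImplicit false

namespace Pool.Agent.Results.MP_64b2bf_al.InfDimIrrepF2

open Pool.Agent.Results.MP_2e8808_al.GrigorchukJacobson

theorem fa_eq (w : List Bool) : fa w = Pool.Agent.Helper940.GrigIrr.aFun w := by
  cases w <;> simp [fa, Pool.Agent.Helper940.GrigIrr.aFun]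

theorem fbcd_eq (w : List Bool) : fb w = Pool.Agent.Helper940.GrigIrr.bFun w ∧
    fc w = Pool.Agent.Helper940.GrigIrr.cFun w ∧ fd w = Pool.Agent.Helper940.GrigIrr.dFun w := by
  induction w with
  | nil => simp [fb, fc, fd, Pool.Agent.Helper940.GrigIrr.bFun,
      Pool.Agent.Helper940.GrigIrr.cFun, Pool.Agent.Helper940.GrigIrr.dFun]
  | cons x w ih =>
    obtain ⟨h1, h2, h3⟩ := ih
    cases x <;> simp [fb, fc, fd, Pool.Agent.Helper940.GrigIrr.bFun,
      Pool.Agent.Helper940.GrigIrr.cFun, Pool.Agent.Helper940.GrigIrr.dFun, fa_eq, h1, h2, h3]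

theorem grig_eq : Grig = Pool.Agent.Helper940.GrigIrr.G := by
  have ha : pa = Pool.Agent.Helper940.GrigIrr.a := Equiv.ext fa_eq
  have hb : pb = Pool.Agent.Helper940.GrigIrr.b := Equiv.ext fun w => (fbcd_eq w).1
  have hc : pc = Pool.Agent.Helper940.GrigIrr.c := Equiv.ext fun w => (fbcd_eq w).2.1
  have hd : pd = Pool.Agent.Helper940.GrigIrr.d := Equiv.ext fun w => (fbcd_eq w).2.2
  rw [Grig, Pool.Agent.Helper940.GrigIrr.G, ha, hb, hc, hd]

theorem isPGroup : IsPGroup 2 Grig := by
  rw [grig_eq]
  exact Pool.Agent.Helper940.GrigIrr.isPGroup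

/-- A 2-group acting linearly on a finite nonzero module over `F_2` fixes a nonzero vector. -/
theorem exists_fixed {V : Type} [AddCommGroup V] [Module (ZMod 2) V] [Finite V] [Nontrivial V]
    (ρ : Representation (ZMod 2) Grig V) : ∃ v : V, v ≠ 0 ∧ ∀ g, ρ g v = v := by
  classical
  have : Fact (Nat.Prime 2) := ⟨Nat.prime_two⟩
  let act : MulAction Grig V :=
    { smul := fun g v => ρ g v
      one_smul := fun v => by
        change ρ 1 v = v
        simp
      mul_smul := fun g h v => by
        change ρ (g * h) v = ρ g (ρ h v)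
        simp }
  have hcard : 2 ∣ Nat.card V := by
    rw [Module.natCard_eq_pow_finrank (K := ZMod 2) (V := V)]
    have : 0 < Module.finrank (ZMod 2) V := Module.finrank_pos
    rw [Nat.card_zmod]
    exact dvd_pow_self _ this.ne'
  have h0 : (0 : V) ∈ MulAction.fixedPoints Grig V := by
    intro g
    change ρ g 0 = 0
    simp
  obtain ⟨b, hb, hb0⟩ := isPGroup.exists_fixed_point_of_prime_dvd_card_of_fixed_point V hcard h0
  exact ⟨b, fun h => hb0 h.symm, fun g => hb g⟩

/-- **The first Grigorchuk group `Grig = ⟨a, b, c, d⟩` has an infinite-dimensional irreducible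
representation over the field with two elements.** The only invariant subspaces of the nonzero
`F_2`-vector space `V` are `0` and `V`, and `V` is not finite-dimensional. -/
theorem result : ∃ (V : Type) (_ : AddCommGroup V) (_ : Module (ZMod 2) V)
    (ρ : Representation (ZMod 2) Grig V), Nontrivial V ∧
    (∀ W : Submodule (ZMod 2) V, (∀ g : Grig, ∀ w ∈ W, ρ g w ∈ W) → W = ⊥ ∨ W = ⊤) ∧
    ¬ FiniteDimensional (ZMod 2) V := by
  obtain ⟨x, hx, hxJ⟩ := Pool.Agent.Results.MP_2e8808_al.GrigorchukJacobson.result
  rw [Ideal.jacobson, Ideal.mem_sInf] at hxJ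
  push Not at hxJ
  obtain ⟨m, ⟨-, hm⟩, hxm⟩ := hxJ
  let R := MonoidAlgebra (ZMod 2) Grig
  let V := R ⧸ m
  have hsimp : IsSimpleModule R V := by
    rw [isSimpleModule_iff_isCoatom]
    exact hm.out
  let ρ : Representation (ZMod 2) Grig V :=
    ((Algebra.lsmul (ZMod 2) (ZMod 2) V : R →ₐ[ZMod 2] Module.End (ZMod 2) V) :
      R →* Module.End (ZMod 2) V).comp (MonoidAlgebra.of (ZMod 2) Grig)
  have hρ : ∀ (g : Grig) (v : V), ρ g v = (MonoidAlgebra.single g 1 : R) • v := fun g v => rfl
  have hnt : Nontrivial V := IsSimpleModule.nontrivial R V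
  refine ⟨V, inferInstance, inferInstance, ρ, hnt, ?_, ?_⟩
  · intro W hW
    have hWR : ∀ (r : R), ∀ w ∈ W, r • w ∈ W := by
      intro r w hw
      induction r using MonoidAlgebra.induction_linear with
      | zero => rw [zero_smul]; exact W.zero_mem
      | add r s hr hs => rw [add_smul]; exact W.add_mem hr hs
      | single g c =>
        have h1 : (MonoidAlgebra.single g c : R) = c • (MonoidAlgebra.single g 1 : R) := by
          rw [MonoidAlgebra.smul_single, smul_eq_mul, mul_one]
        rw [h1, smul_assoc]
        exact W.smul_mem _ (hW g w hw)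
    let W' : Submodule R V :=
      { carrier := W
        add_mem' := fun ha hb => W.add_mem ha hb
        zero_mem' := W.zero_mem
        smul_mem' := fun r w hw => hWR r w hw }
    rcases eq_bot_or_eq_top W' with h | h
    · left
      ext w
      have h1 : w ∈ W ↔ w ∈ W' := Iff.rfl
      rw [h1, h]
      simp
    · right
      ext w
      have h1 : w ∈ W ↔ w ∈ W' := Iff.rfl
      rw [h1, h]
      simp
  · intro hfin
    have : Finite V := Module.finite_of_finite (ZMod 2)
    obtain ⟨v, hv0, hv⟩ := exists_fixed ρ
    have haug : ∀ r : R, r • v = aug r • v := by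
      intro r
      induction r using MonoidAlgebra.induction_linear with
      | zero => simp
      | add r s hr hs => rw [add_smul, map_add, add_smul, hr, hs]
      | single g c =>
        have h1 : (MonoidAlgebra.single g c : R) = c • (MonoidAlgebra.single g 1 : R) := by
          rw [MonoidAlgebra.smul_single, smul_eq_mul, mul_one]
        rw [h1, smul_assoc, ← hρ, hv g, map_smul, aug_single, smul_eq_mul, mul_one]
    have hspan : Submodule.span R {v} = ⊤ := by
      rcases eq_bot_or_eq_top (Submodule.span R {v}) with h | h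
      · exact absurd (Submodule.span_singleton_eq_bot.1 h) hv0
      · exact h
    have h1 : (Submodule.Quotient.mk (1 : R) : V) ∈ Submodule.span R {v} := by
      rw [hspan]; trivial
    obtain ⟨r, hr⟩ := Submodule.mem_span_singleton.1 h1
    rw [haug r] at hr
    have h2 : x • (Submodule.Quotient.mk (1 : R) : V) = 0 := by
      rw [← hr, smul_comm x (aug r) v, haug x, hx, zero_smul, smul_zero]
    rw [← Submodule.Quotient.mk_smul, smul_eq_mul, mul_one, Submodule.Quotient.mk_eq_zero] at h2
    exact hxm h2

end Pool.Agent.Results.MP_64b2bf_al.InfDimIrrepF2
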